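import Mathlib
import Pool.Agent.H50.Hit

set_option autoImplicit false

open Finset Pool.Agent.H50.Hit

namespace Pool.Agent.Results.MP_eadfc1_pr.Counter

/-- walk down a path, one step with probability `p`, holding otherwise; `0` is absorbing -/
def Q (m : ℕ) (p : ℝ) (u v : Fin (m + 1)) : ℝ :=
  if u = 0 then (if v = 0 then 1 else 0)
  else (if (u : ℕ) = v + 1 then p else 0) + (if v = u then 1 - p else 0)

theorem sum_Q (m : ℕ) (p : ℝ) (j : Fin m) (f : Fin (m + 1) → ℝ) :
    ∑ v, Q m p j.succ v * f v = p * f j.castSucc + (1 - p) * f j.succ := by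
  simp only [Q, if_neg (Fin.succ_ne_zero j), add_mul, sum_add_distrib, ite_mul, zero_mul]
  congr 1
  · rw [sum_eq_single j.castSucc]
    · simp
    · intro v _ hv
      rw [if_neg]
      intro h
      apply hv
      apply Fin.ext
      simp only [Fin.val_succ, Fin.val_castSucc] at h ⊢
      omega
    · simp
  · simp

theorem stoch_Q (m : ℕ) {p : ℝ} (h0 : 0 ≤ p) (h1 : p ≤ 1) : Stoch (Q m p) := by
  constructor
  · intro u v
    unfold Q
    split_ifs <;> linarith
  · intro u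
    refine Fin.cases ?_ (fun j => ?_) u
    · simp [Q]
    · have := sum_Q m p j (fun _ => 1)
      simp only [mul_one] at this
      rw [this]; ring

/-- probability of reaching `0` within `k` steps -/
noncomputable def F (m : ℕ) (p : ℝ) (k : ℕ) (u : Fin (m + 1)) : ℝ :=
  ∑ i ∈ range (k + 1), hit (Q m p) u 0 i

theorem F_zero (m : ℕ) (p : ℝ) (k : ℕ) : F m p k 0 = 1 := by
  unfold F
  rw [sum_range_succ']
  simp [hit_zero, hit_succ]

theorem F_start (m : ℕ) (p : ℝ) (j : Fin m) : F m p 0 j.succ = 0 := by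
  simp [F, hit_zero]

theorem F_succ (m : ℕ) (p : ℝ) (k : ℕ) (j : Fin m) :
    F m p (k + 1) j.succ = p * F m p k j.castSucc + (1 - p) * F m p k j.succ := by
  unfold F
  rw [sum_range_succ', hit_zero, if_neg (Fin.succ_ne_zero j), add_zero, mul_sum, mul_sum,
    ← sum_add_distrib]
  refine sum_congr rfl fun i _ => ?_
  rw [hit_succ, if_neg (Fin.succ_ne_zero j), sum_Q]

theorem F_upper (m : ℕ) {p : ℝ} (h0 : 0 ≤ p) (h1 : p ≤ 1) {c : ℝ} (hc : 0 ≤ c) (k : ℕ) :
    ∀ u : Fin (m + 1), c ^ 2 * F m p k u ≤ (k * p - (u : ℕ) + c) ^ 2 + k * p * (1 - p) := by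
  have hz : ∀ k : ℕ, c ^ 2 * F m p k 0 ≤
      (k * p - ((0 : Fin (m + 1)) : ℕ) + c) ^ 2 + k * p * (1 - p) := by
    intro k
    have : 0 ≤ (k : ℝ) * p := by positivity
    have h2 : 0 ≤ (k : ℝ) * p * (1 - p) := mul_nonneg this (by linarith)
    rw [F_zero]
    simp only [Fin.val_zero, Nat.cast_zero]
    nlinarith
  induction k with
  | zero =>
    intro u
    refine Fin.cases (hz 0) (fun j => ?_) u
    rw [F_start]
    simp only [Nat.cast_zero, zero_mul, mul_zero, add_zero]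
    positivity
  | succ k ih =>
    intro u
    refine Fin.cases (hz _) (fun j => ?_) u
    have a := mul_le_mul_of_nonneg_left (ih j.castSucc) h0
    have b := mul_le_mul_of_nonneg_left (ih j.succ) (sub_nonneg.2 h1)
    rw [F_succ]
    simp only [Fin.val_succ, Fin.val_castSucc] at a b ⊢
    push_cast at a b ⊢
    nlinarith

theorem F_lower (m : ℕ) {p : ℝ} (h0 : 0 ≤ p) (h1 : p ≤ 1) {c : ℝ} (hc : 0 ≤ c) (k : ℕ) :
    ∀ u : Fin (m + 1), c ^ 2 * (1 - F m p k u) ≤
      (k * p - (u : ℕ) - c) ^ 2 + k * p * (1 - p) := by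
  have hz : ∀ k : ℕ, c ^ 2 * (1 - F m p k 0) ≤
      (k * p - ((0 : Fin (m + 1)) : ℕ) - c) ^ 2 + k * p * (1 - p) := by
    intro k
    have : 0 ≤ (k : ℝ) * p := by positivity
    have h2 : 0 ≤ (k : ℝ) * p * (1 - p) := mul_nonneg this (by linarith)
    rw [F_zero, sub_self, mul_zero]
    positivity
  induction k with
  | zero =>
    intro u
    refine Fin.cases (hz 0) (fun j => ?_) u
    rw [F_start]
    have : (0 : ℝ) ≤ (j.succ : ℕ) := by positivity
    simp only [Nat.cast_zero, zero_mul, add_zero]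
    nlinarith
  | succ k ih =>
    intro u
    refine Fin.cases (hz _) (fun j => ?_) u
    have a := mul_le_mul_of_nonneg_left (ih j.castSucc) h0
    have b := mul_le_mul_of_nonneg_left (ih j.succ) (sub_nonneg.2 h1)
    rw [F_succ]
    simp only [Fin.val_succ, Fin.val_castSucc] at a b ⊢
    push_cast at a b ⊢
    nlinarith

theorem F_window (m : ℕ) {p : ℝ} (h0 : 0 ≤ p) (h1 : p ≤ 1) (u : Fin (m + 1)) (k l : ℕ) :
    F m p (k + l) u - F m p k u ≤ ∑ i ∈ Icc (k + 1) (k + 1 + (l + 1)), hit (Q m p) u 0 i := by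
  unfold F
  rw [← sum_Ico_eq_sub _ (by omega)]
  refine sum_le_sum_of_subset_of_nonneg (fun i hi => ?_)
    fun i _ _ => hit_nonneg (stoch_Q m h0 h1).1 _ _ _
  simp only [mem_Ico, mem_Icc] at hi ⊢
  omega

/-- For every `C` there are a Markov chain on `n` states, states `x, y` and `t > n` with
`P_x(t ≤ τ(y) ≤ t + n) > C n / t`. -/
theorem result (C : ℝ) : ∃ (n : ℕ) (P : Fin n → Fin n → ℝ) (x y : Fin n) (t : ℕ),
    Stoch P ∧ n < t ∧ C * n / t < ∑ k ∈ Icc t (t + n), hit P x y k := by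
  obtain ⟨s, hs⟩ := exists_nat_gt (80 * |C| + 4)
  have hC : 0 ≤ |C| := abs_nonneg C
  have hs4 : (4 : ℝ) ≤ s := by linarith
  have hs4' : 4 ≤ s := by exact_mod_cast hs4
  have hspos : (0 : ℝ) < s := by linarith
  obtain ⟨a, rfl⟩ : ∃ a, s = a + 2 := ⟨s - 2, by omega⟩
  set s : ℕ := a + 2 with hsdef
  have hsa : (s : ℝ) = a + 2 := by rw [hsdef]; push_cast; ring
  set m : ℕ := s ^ 2 with hm
  have hmr : (m : ℝ) = (s : ℝ) ^ 2 := by rw [hm]; push_cast; ring
  set p : ℝ := 1 / s with hp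
  have h0 : 0 ≤ p := by positivity
  have h1 : p ≤ 1 := by rw [hp, div_le_one hspos]; linarith
  have hps : p * s = 1 := by rw [hp]; field_simp
  have hup := F_upper m h0 h1 (c := 2 * s) (by positivity) (a * m) (Fin.last m)
  have hlo := F_lower m h0 h1 (c := 3 * s) (by positivity) (a * m + 5 * m) (Fin.last m)
  rw [Fin.val_last] at hup hlo
  have e1 : ((a * m : ℕ) : ℝ) * p = (s : ℝ) ^ 2 - 2 * s := by
    push_cast
    rw [hmr, show (a : ℝ) = s - 2 by linarith]
    linear_combination ((s : ℝ) - 2) * s * hps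
  have e2 : ((a * m + 5 * m : ℕ) : ℝ) * p = (s : ℝ) ^ 2 + 3 * s := by
    push_cast
    rw [hmr, show (a : ℝ) = s - 2 by linarith]
    linear_combination ((s : ℝ) + 3) * s * hps
  rw [e1, hmr] at hup
  rw [e2, hmr] at hlo
  have hs2 : (0 : ℝ) < (s : ℝ) ^ 2 := by positivity
  have hA : F m p (a * m) (Fin.last m) ≤ 1 / 4 := by
    have : ((s : ℝ) ^ 2 - 2 * s) * (1 - p) ≤ (s : ℝ) ^ 2 := by nlinarith
    nlinarith
  have hB : 1 - F m p (a * m + 5 * m) (Fin.last m) ≤ 1 / 4 := by
    have : ((s : ℝ) ^ 2 + 3 * s) * (1 - p) ≤ 2 * (s : ℝ) ^ 2 := by nlinarith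
    nlinarith
  have hwin : ∃ i : ℕ, 1 / 10 ≤
      F m p (a * m + i * m + m) (Fin.last m) - F m p (a * m + i * m) (Fin.last m) := by
    by_contra hne
    push Not at hne
    have k0 := hne 0
    have k1 := hne 1
    have k2 := hne 2
    have k3 := hne 3
    have k4 := hne 4
    rw [show a * m + 0 * m = a * m by ring, show a * m + m = a * m + 1 * m by ring] at k0
    rw [show a * m + 1 * m + m = a * m + 2 * m by ring] at k1
    rw [show a * m + 2 * m + m = a * m + 3 * m by ring] at k2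
    rw [show a * m + 3 * m + m = a * m + 4 * m by ring] at k3
    rw [show a * m + 4 * m + m = a * m + 5 * m by ring] at k4
    linarith
  obtain ⟨i, hi⟩ := hwin
  have hm16 : 16 ≤ m := by rw [hm]; nlinarith
  have ha2 : 2 ≤ a := by omega
  refine ⟨m + 1, Q m p, Fin.last m, 0, a * m + i * m + 1, stoch_Q m h0 h1, by nlinarith, ?_⟩
  refine lt_of_lt_of_le ?_ (hi.trans (F_window m h0 h1 _ _ _))
  have hi0 : (0 : ℝ) ≤ i := by positivity
  have hm' : (16 : ℝ) ≤ m := by exact_mod_cast hm16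
  have ha' : (s : ℝ) / 2 ≤ a := by linarith
  rw [div_lt_iff₀ (by positivity)]
  push_cast
  have hc1 : C * ((m : ℝ) + 1) ≤ |C| * (2 * m) :=
    (mul_le_mul_of_nonneg_right (le_abs_self C) (by positivity)).trans
      (mul_le_mul_of_nonneg_left (by linarith) hC)
  have hc2 : 40 * |C| * m ≤ a * m := mul_le_mul_of_nonneg_right (by linarith) (by positivity)
  have hc3 : 0 ≤ (i : ℝ) * m := by positivity
  nlinarith

end Pool.Agent.Results.MP_eadfc1_pr.Counter
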